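import Pool.Agent.RFH.Final

/-!
MP_f887f5_ag: Harbourne-type containments fail for recursively free, even for inductively free,
hyperplane arrangements.
-/

namespace Pool.Agent.Results.MP_f887f5_ag.InductivelyFreeCounterexample

open Pool.Agent.RFH

/-- Let `A(T)` be the reflection arrangement of `B_3` in `ℂ^3` together with the planes
`x = t y`, `t ∈ T`, where `T` is any finite set of at least three complex numbers different from
`0, 1, -1`.  Then `A(T)` has `|T| + 9` planes, is inductively free, hence recursively free, and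
`J(A)^(3)` is not contained in `J(A)^2`.  In particular the containments
`J(A)^(2r-1) ⊆ J(A)^r` fail for recursively free arrangements. -/
theorem result :
    (∀ T : Finset ℂ, 3 ≤ T.card → (0 : ℂ) ∉ T → (1 : ℂ) ∉ T → (-1 : ℂ) ∉ T →
      (arr T).ncard = T.card + 9 ∧ InductivelyFree 3 (arr T) ∧ RecursivelyFree 3 (arr T) ∧
        ¬ Containment (arr T) 2) ∧
    ¬ ∀ (n : ℕ) (A : Set (Submodule ℂ (Fin n → ℂ))), RecursivelyFree n A →
        ∀ r : ℕ, 2 ≤ r → Containment A r := by
  have key : ∀ T : Finset ℂ, 3 ≤ T.card → (0 : ℂ) ∉ T → (1 : ℂ) ∉ T → (-1 : ℂ) ∉ T →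
      (arr T).ncard = T.card + 9 ∧ InductivelyFree 3 (arr T) ∧ RecursivelyFree 3 (arr T) ∧
        ¬ Containment (arr T) 2 := by
    intro T hT h0 h1 h2
    have hIF := arr_IF T (by omega) h0 h1 h2
    exact ⟨arr_card T (by omega) h0 h1 h2, hIF, hIF.recursivelyFree,
      arr_not_le T hT h0 h1 h2⟩
  refine ⟨key, ?_⟩
  intro h
  have hc : ({2, 3, 4} : Finset ℂ).card = 3 := by
    rw [Finset.card_eq_three]
    exact ⟨2, 3, 4, by norm_num, by norm_num, by norm_num, rfl⟩
  obtain ⟨_, _, h3, h4⟩ := key {2, 3, 4} (le_of_eq hc.symm)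
    (by
      simp only [Finset.mem_insert, Finset.mem_singleton, not_or]
      norm_num)
    (by
      simp only [Finset.mem_insert, Finset.mem_singleton, not_or]
      norm_num)
    (by
      simp only [Finset.mem_insert, Finset.mem_singleton, not_or]
      refine ⟨?_, ?_, ?_⟩ <;> norm_num)
  exact h4 (h 3 _ h3 2 le_rfl)

end Pool.Agent.Results.MP_f887f5_ag.InductivelyFreeCounterexample
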